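import Mathlib
import Pool.Agent.Lib.MP_157e4e_co.Defs
import Pool.Agent.Lib.MP_157e4e_co.Asym

set_option autoImplicit false

namespace Pool.Agent.Results.MP_157e4e_co.DoubleRange

open Pool.Agent.Lib.MP_157e4e_co

/-- For `k ≥ 4`, `f_k(n, 2 ^ (⌈log₂ k⌉ + 1)) = O(√(log n · log log n))`. -/
theorem result (k : ℕ) (hk : 4 ≤ k) : ∃ C : ℝ, ∀ n : ℕ, 16 ≤ n →
    ∃ P : Finset (Equiv.Perm (Fin n)),
      (P.card : ℝ) ≤ C * √(Real.log n * Real.log (Real.log n)) ∧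
      ∀ X : Finset (Fin n), X.card = k → Shatters P (2 ^ (Nat.clog 2 k + 1)) X :=
  main k hk

end Pool.Agent.Results.MP_157e4e_co.DoubleRange
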