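import Mathlib
import Pool.Agent.Lib.MP_157e4e_co.Defs
import Pool.Agent.Lib.MP_157e4e_co.FFinal

set_option autoImplicit false

namespace Pool.Agent.Results.MP_157e4e_co.SubLog

open Pool.Agent.Lib.MP_157e4e_co

/-- For `k ≥ 3` and `1 ≤ t ≤ 2 ^ (k - 1)`, `f_k(n, t) = o(log n)`. -/
theorem result (k t : ℕ) (hk : 3 ≤ k) (_ht1 : 1 ≤ t) (ht : t ≤ 2 ^ (k - 1)) (ε : ℝ) (hε : 0 < ε) :
    ∃ n₀ : ℕ, ∀ n : ℕ, n₀ ≤ n → ∃ P : Finset (Equiv.Perm (Fin n)),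
      (P.card : ℝ) ≤ ε * Real.log n ∧
      ∀ X : Finset (Fin n), X.card = k → Shatters P t X :=
  Full.main k t (by omega) ht ε hε

end Pool.Agent.Results.MP_157e4e_co.SubLog
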